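import Mathlib

/-!
# Project KC, help for the module SW: the inertia group over a rational prime
-/

set_option autoImplicit false

open NumberField

namespace Pool.Agent.D0H92.KC

theorem inr (N : Type) [Field N] [NumberField N] [IsGalois ℚ N] (p : ℕ) (hp : p.Prime) (𝔓 : Ideal (𝓞 N)) (hP : 𝔓.IsPrime)
   (hc : 𝔓.comap (algebraMap ℤ (𝓞 N)) = Ideal.span {(p : ℤ)}) (h1 : (Ideal.span {(p:ℤ)}).map (algebraMap ℤ (𝓞 N)) ≤ 𝔓 ^ 2) :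
   ∃ s : N ≃ₐ[ℚ] N, s ≠ 1 ∧ ∀ y : 𝓞 N, ∃ z ∈ 𝔓, (z : N) = s y - y := by
  obtain ⟨𝔭, h𝔭⟩ : ∃ 𝔭 : Ideal ℤ, 𝔭 = Ideal.span {(p : ℤ)} := ⟨_, rfl⟩
  rw [← h𝔭] at hc h1
  have hp0 : 𝔭 ≠ ⊥ := by
    rw [h𝔭, Ne, Ideal.span_singleton_eq_bot]
    exact_mod_cast hp.ne_zero
  have hpp : 𝔭.IsPrime := by
    rw [h𝔭, Ideal.span_singleton_prime (by exact_mod_cast hp.ne_zero)]
    exact Nat.prime_iff_prime_int.1 hp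
  have hL : 𝔓.LiesOver 𝔭 := ⟨hc.symm⟩
  have h2 : 𝔭.ramificationIdx' 𝔓 ≠ 1 :=
    (Ideal.ramificationIdx'_ne_one_iff (h1.trans (Ideal.pow_le_self two_ne_zero))).2 h1
  rw [Ideal.ramificationIdx'_eq_ramificationIdx 𝔭 𝔓 hp0] at h2
  have h3 := Ideal.card_inertia_eq_ramificationIdxIn (G := N ≃ₐ[ℚ] N) 𝔭 𝔓
  rw [Ideal.ramificationIdxIn_eq_ramificationIdx 𝔭 𝔓 (N ≃ₐ[ℚ] N)] at h3
  have h4 : 𝔓.inertia (N ≃ₐ[ℚ] N) ≠ ⊥ := by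
    intro h
    apply h2
    rw [← h3, h]
    exact Subgroup.card_bot
  obtain ⟨⟨σ, hσ⟩, hσ1⟩ := Subgroup.ne_bot_iff_exists_ne_one.1 h4
  refine ⟨σ, fun h => hσ1 (Subtype.ext h), fun y => ⟨σ • y - y, hσ y, ?_⟩⟩
  rfl

end Pool.Agent.D0H92.KC
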