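import Mathlib

/-!
# Project KC, help for the module SW: the roots of `x ^ n - x ^ 2` modulo `p > n`
-/

set_option autoImplicit false

open Polynomial Finset

namespace Pool.Agent.D0H92.KC

open Classical in
theorem two (𝕜 : Type) [Field 𝕜] (n p : ℕ) (hn : 3 ≤ n) (hnp : n < p) (hp : p.Prime) (hchar : (p : 𝕜) = 0)
    (β : Fin n → 𝕜) (h : ∏ i, (X - C (β i)) = (X ^ n - X ^ 2 : 𝕜[X])) :
    ∃ i j, i ≠ j ∧ β i = 0 ∧ β j = 0 ∧ (∀ k, k ≠ i → k ≠ j → β k ≠ 0) ∧ ∀ k l, k ≠ l → β k = β l → β k = 0 := by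
  have hne : ∀ m : ℕ, 0 < m → m < p → (m : 𝕜) ≠ 0 := by
    intro m hm0 hmp hm
    have hco : Nat.Coprime m p :=
      ((Nat.Prime.coprime_iff_not_dvd hp).2 (fun h => absurd (Nat.le_of_dvd hm0 h) (by omega))).symm
    obtain ⟨u, v, huv⟩ := Int.isCoprime_iff_gcd_eq_one.2 (show Int.gcd (m : ℤ) (p : ℤ) = 1 by
      rw [Int.gcd_natCast_natCast]; exact hco)
    have h1 := congrArg (Int.cast (R := 𝕜)) huv
    push_cast at h1
    rw [hm, hchar] at h1
    simp at h1
  -- the first zero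
  obtain ⟨m, hm⟩ : ∃ m, n = m + 3 := ⟨n - 3, by omega⟩
  have h0 : ∃ i, β i = 0 := by
    have h1 := congrArg (Polynomial.eval 0) h
    rw [eval_prod, eval_sub, eval_pow, eval_pow, eval_X] at h1
    have h2 : (0 : 𝕜) ^ n - 0 ^ 2 = 0 := by
      rw [zero_pow (by omega), zero_pow two_ne_zero, sub_zero]
    rw [h2, prod_eq_zero_iff] at h1
    obtain ⟨i, -, hi⟩ := h1
    refine ⟨i, ?_⟩
    rw [eval_sub, eval_X, eval_C] at hi
    simpa using hi
  obtain ⟨i, hi⟩ := h0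
  have e1 : ∏ k ∈ univ.erase i, (X - C (β k)) = (X ^ (m + 2) - X : 𝕜[X]) := by
    have h1 : (X - C (β i)) * ∏ k ∈ univ.erase i, (X - C (β k)) = (X : 𝕜[X]) * (X ^ (m + 2) - X) := by
      rw [mul_prod_erase univ (fun k => X - C (β k)) (mem_univ i), h, hm]
      ring
    rw [hi, C_0, sub_zero] at h1
    exact mul_left_cancel₀ X_ne_zero h1
  obtain ⟨j, hj, hj0⟩ : ∃ j ∈ univ.erase i, β j = 0 := by
    have h1 := congrArg (Polynomial.eval 0) e1
    rw [eval_prod, eval_sub, eval_pow, eval_X] at h1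
    have h2 : (0 : 𝕜) ^ (m + 2) - 0 = 0 := by
      rw [zero_pow (by omega), sub_zero]
    rw [h2, prod_eq_zero_iff] at h1
    obtain ⟨j, hj, hj2⟩ := h1
    refine ⟨j, hj, ?_⟩
    rw [eval_sub, eval_X, eval_C] at hj2
    simpa using hj2
  have e2 : ∏ k ∈ (univ.erase i).erase j, (X - C (β k)) = (X ^ (m + 1) - 1 : 𝕜[X]) := by
    have h1 : (X - C (β j)) * ∏ k ∈ (univ.erase i).erase j, (X - C (β k)) = (X : 𝕜[X]) * (X ^ (m + 1) - 1) := by
      rw [mul_prod_erase (univ.erase i) (fun k => X - C (β k)) hj, e1]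
      ring
    rw [hj0, C_0, sub_zero] at h1
    exact mul_left_cancel₀ X_ne_zero h1
  have hji : j ≠ i := (mem_erase.1 hj).1
  have hrest : ∀ k, k ≠ i → k ≠ j → β k ≠ 0 := by
    intro k hki hkj hk
    have h1 := congrArg (Polynomial.eval 0) e2
    rw [eval_prod, prod_eq_zero (mem_erase.2 ⟨hkj, mem_erase.2 ⟨hki, mem_univ k⟩⟩) (by simp [hk])] at h1
    rw [eval_sub, eval_pow, eval_X, eval_one, zero_pow (by omega), zero_sub] at h1
    exact one_ne_zero (neg_eq_zero.1 h1.symm)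
  refine ⟨i, j, hji.symm, hi, hj0, hrest, ?_⟩
  intro k l hkl hβ
  by_contra hb
  -- a double root different from zero
  have h1 : (X - C (β k)) ^ 2 ∣ (X ^ n - X ^ 2 : 𝕜[X]) := by
    rw [← h, ← mul_prod_erase univ (fun k => X - C (β k)) (mem_univ k),
      ← mul_prod_erase (univ.erase k) (fun k => X - C (β k)) (mem_erase.2 ⟨hkl.symm, mem_univ l⟩), sq, ← hβ, ← mul_assoc]
    exact dvd_mul_right _ _
  obtain ⟨q, hq⟩ := h1
  have h2 := congrArg (fun r => Polynomial.eval (β k) r) hq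
  have h3 := congrArg (fun r => Polynomial.eval (β k) (derivative r)) hq
  simp only [derivative_sub, derivative_mul, derivative_pow, derivative_X, derivative_C, eval_add, eval_sub, eval_mul, eval_pow,
    eval_X, eval_C, eval_natCast, sub_self, mul_one, sub_zero, zero_mul, mul_zero, add_zero, ne_eq, OfNat.ofNat_ne_zero,
    not_false_eq_true, zero_pow, Nat.cast_ofNat, eval_ofNat, one_mul, pow_one] at h2 h3
  have h4 : (n : 𝕜) * β k ^ (n - 1) - 2 * β k = 0 := by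
    have h5 : (2 - 1 : ℕ) = 1 := rfl
    simpa [h5] using h3
  have h6 : ((n - 2 : ℕ) : 𝕜) * β k ^ 2 = 0 := by
    have h7 : β k * ((n : 𝕜) * β k ^ (n - 1) - 2 * β k) = 0 := by rw [h4, mul_zero]
    have h8 : β k ^ (n - 1) * β k = β k ^ n := by rw [← pow_succ]; congr 1; omega
    rw [Nat.cast_sub (by omega)]
    push_cast
    linear_combination h7 - (n : 𝕜) * h2 - (n : 𝕜) * h8
  rcases mul_eq_zero.1 h6 with h7 | h7
  · exact hne (n - 2) (by omega) (by omega) h7
  · exact hb (pow_eq_zero_iff two_ne_zero |>.1 h7)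

end Pool.Agent.D0H92.KC
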